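import Pool.Agent.J6H99.NX.Stm

/-!
# First-passage percolation: averages of Busemann functions (module BUS)
-/

set_option autoImplicit false

open MeasureTheory ProbabilityTheory Filter Topology
open scoped ENNReal

namespace Pool.Agent.J6H34.NX

open Pool.Agent.J6H99.NX

variable {e : ℕ}

/-! ### The mean passage time -/

lemma integrable_T (q : Par) (F : Measure ℝ) [IsProbabilityMeasure F] [MB q F] (x y : V e) :
    Integrable (fun ω : Om e => T q ω x y) (PM e F) := int_T q F x y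

/-- translation -/
lemma T_tr (q : Par) (ω : Om e) (p z : V e) : T q (act (tr p) ω) 0 (z - p) = T q ω p z := by
  rw [T_act, tr_apply, tr_apply, zero_add, sub_add_cancel]

/-- the action as a measurable equivalence -/
def actE (φ : (lat e) ≃g (lat e)) : Om e ≃ᵐ Om e where
  toFun := act φ
  invFun := act φ.symm
  left_inv := act_act_symm φ
  right_inv := fun ω => by
    have := act_act_symm φ.symm ω
    simpa using this
  measurable_toFun := measurable_pi_iff.2 fun s => measurable_pi_apply _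
  measurable_invFun := measurable_pi_iff.2 fun s => measurable_pi_apply _

lemma int_act (F : Measure ℝ) [IsProbabilityMeasure F] (φ : (lat e) ≃g (lat e)) (f : Om e → ℝ) :
    ∫ ω, f (act φ ω) ∂(PM e F) = ∫ ω, f ω ∂(PM e F) :=
  (act_mp F φ).integral_comp (actE φ).measurableEmbedding f

/-! ### Uniform concentration -/

lemma cheb (q : Par) (F : Measure ℝ) [IsProbabilityMeasure F] [MB q F] {C : ℝ}
    (hC : ∀ x : V e, ∫ ω, (T q ω 0 x - g q F x) ^ 2 ∂(PM e F) ≤ C * n1 x) (x : V e) {t : ℝ}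
    (ht : 0 < t) :
    PM e F {ω | t ≤ |T q ω 0 x - g q F x|} ≤ ENNReal.ofReal (C * n1 x / t ^ 2) := by
  have hi : Integrable (fun ω : Om e => (T q ω 0 x - g q F x) ^ 2) (PM e F) := by
    exact ((memLp_T q F 0 x).sub (memLp_const _)).integrable_sq
  have h1 := mul_meas_ge_le_integral_of_nonneg
    (Eventually.of_forall fun ω : Om e => sq_nonneg (T q ω 0 x - g q F x)) hi (t ^ 2)
  have h2 : {ω : Om e | t ≤ |T q ω 0 x - g q F x|} ⊆
      {ω | t ^ 2 ≤ (T q ω 0 x - g q F x) ^ 2} := by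
    intro ω hω
    have hω' : t ≤ |T q ω 0 x - g q F x| := hω
    show t ^ 2 ≤ (T q ω 0 x - g q F x) ^ 2
    rw [← sq_abs (T q ω 0 x - g q F x)]
    exact pow_le_pow_left₀ ht.le hω' 2
  refine (measure_mono h2).trans ?_
  rw [← ofReal_measureReal]
  refine ENNReal.ofReal_le_ofReal ?_
  rw [le_div_iff₀ (by positivity), mul_comm]
  exact h1.trans (hC x)

theorem uc0 (q : Par) (F : Measure ℝ) [IsProbabilityMeasure F] [MB q F] (hV : VarB e q F) {R δ ε : ℝ}
    (hR : 0 < R) (hδ : 0 < δ) (hε : 0 < ε) :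
    ∃ m0 : ℕ, ∀ m : ℕ, m0 ≤ m →
      PM e F {ω | ∃ z : V e, (n1 z : ℝ) ≤ R * m ∧ δ * m < |T q ω 0 z - g q F z|} ≤
        ENNReal.ofReal ε := by
  obtain ⟨C, hC0, hC⟩ := hV
  have hb := q.hb
  have he : (0 : ℝ) ≤ e := Nat.cast_nonneg e
  set d : ℝ := (e : ℝ) + 2 with hd
  have hd0 : 0 < d := by rw [hd]; linarith
  set θ : ℝ := δ / (12 * (d * q.b)) with hθ
  have hθ0 : 0 < θ := by positivity
  set K : ℕ := ⌈R / θ⌉₊ with hK
  have hKR : R / θ ≤ K := Nat.le_ceil _
  set S : Finset (Fin (e + 2) → ℤ) := Fintype.piFinset fun _ => Finset.Icc (-(K : ℤ)) K with hS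
  -- the constants
  set C1 : ℝ := C * (d * K * (θ + 1)) * (9 / δ ^ 2) with hC1
  have hC10 : 0 ≤ C1 := by positivity
  -- the ball in which the passage times are almost Lipschitz
  obtain ⟨L', hL'⟩ := exists_nat_ge (R + d * (θ + 1))
  set L : ℕ := L' + 1 with hL
  have hL1 : (1 : ℝ) ≤ L := by rw [hL]; push_cast; linarith [Nat.cast_nonneg (α := ℝ) L']
  have hL0 : (0 : ℝ) < L := by linarith
  have hLR : R + d * (θ + 1) ≤ L := by rw [hL]; push_cast; linarith
  obtain ⟨C2, hC2, hTB⟩ := prob_TB (e := e) q F (θ := δ / (12 * L)) (by positivity) 1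
  obtain ⟨m1, hm1⟩ := exists_nat_ge (12 * (d * q.b) / δ)
  obtain ⟨m2, hm2⟩ := exists_nat_ge ((S.card * C1 + C2) / ε)
  refine ⟨max 1 (max m1 m2), fun m hm => ?_⟩
  have hm1' : (m1 : ℝ) ≤ m := by exact_mod_cast (le_max_left _ _).trans ((le_max_right _ _).trans hm)
  have hm2' : (m2 : ℝ) ≤ m := by exact_mod_cast (le_max_right _ _).trans ((le_max_right _ _).trans hm)
  have hm3 : (1 : ℝ) ≤ m := by exact_mod_cast (le_max_left _ _).trans hm
  have hm0 : (0 : ℝ) < m := by linarith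
  set r : ℕ := ⌊θ * m⌋₊ + 1 with hr
  have hr0 : (0 : ℤ) < r := by rw [hr]; positivity
  have hr1 : θ * m ≤ r := by rw [hr]; push_cast; exact (Nat.lt_floor_add_one _).le
  have hr2 : (r : ℝ) ≤ θ * m + 1 := by
    rw [hr]; push_cast
    have := Nat.floor_le (show 0 ≤ θ * m by positivity)
    linarith
  have hr3 : (r : ℝ) ≤ (θ + 1) * m := by nlinarith
  have hr4 : d * q.b * r ≤ δ * m / 6 := by
    have h1 : d * q.b * (θ * m) = δ * m / 12 := by rw [hθ]; field_simp
    have h2 : d * q.b ≤ δ * m / 12 := by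
      rw [div_le_iff₀ hδ] at hm1
      nlinarith
    calc d * q.b * r ≤ d * q.b * (θ * m + 1) := mul_le_mul_of_nonneg_left hr2 (by positivity)
      _ = d * q.b * (θ * m) + d * q.b := by ring
      _ ≤ δ * m / 6 := by rw [h1]; linarith
  have hrK : R * m ≤ K * r := by
    have h1 : R ≤ K * θ := by rwa [div_le_iff₀ hθ0] at hKR
    calc R * m ≤ K * θ * m := mul_le_mul_of_nonneg_right h1 hm0.le
      _ = K * (θ * m) := by ring
      _ ≤ K * r := mul_le_mul_of_nonneg_left hr1 (Nat.cast_nonneg _)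
  -- the mesh
  have hsub : {ω : Om e | ∃ z : V e, (n1 z : ℝ) ≤ R * m ∧ δ * m < |T q ω 0 z - g q F z|} ⊆
      (⋃ k ∈ S, {ω | δ * m / 3 ≤ |T q ω 0 (fun i => r * k i) - g q F (fun i => r * k i)|}) ∪
        (TB q (δ / (12 * L)) (L * m) 0)ᶜ := by
    rintro ω ⟨z, hz1, hz2⟩
    by_cases hTBω : ω ∈ TB q (δ / (12 * L)) (L * m) (0 : V e)
    swap
    · exact Or.inr hTBω
    refine Or.inl ?_
    set k : Fin (e + 2) → ℤ := fun i => z i / r with hk
    have hkS : k ∈ S := by
      rw [hS, Fintype.mem_piFinset]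
      intro i
      rw [Finset.mem_Icc]
      have h1 : (|z i| : ℝ) ≤ K * r := by
        have : (|z i| : ℤ) ≤ n1 z := coord_le_n1 z i
        have : ((|z i| : ℤ) : ℝ) ≤ n1 z := by exact_mod_cast this
        push_cast at this
        linarith
      have h2 : |z i| ≤ (K : ℤ) * r := by exact_mod_cast h1
      rw [abs_le] at h2
      constructor
      · rw [hk]
        simp only
        rw [Int.le_ediv_iff_mul_le hr0]
        linarith
      · rw [hk]
        simp only
        exact Int.ediv_le_of_le_mul hr0 (by linarith)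
    refine Set.mem_iUnion₂.2 ⟨k, hkS, ?_⟩
    set w : V e := fun i => r * k i with hw
    show δ * m / 3 ≤ |T q ω 0 w - g q F w|
    have hzw : (n1 (z - w) : ℝ) ≤ d * r := by
      have h1 : n1 (z - w) ≤ ∑ _i : Fin (e + 2), (r : ℤ) := by
        unfold n1
        refine Finset.sum_le_sum fun i _ => ?_
        simp only [Pi.sub_apply, hw, hk]
        have h2 := Int.emod_add_mul_ediv (z i) r
        have h3 := Int.emod_nonneg (z i) hr0.ne'
        have h4 := Int.emod_lt_of_pos (z i) hr0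
        rw [abs_le]
        constructor <;> linarith
      have h5 : ((n1 (z - w) : ℤ) : ℝ) ≤ ((∑ _i : Fin (e + 2), (r : ℤ) : ℤ) : ℝ) := by
        exact_mod_cast h1
      refine h5.trans (le_of_eq ?_)
      simp [hd]
    have hzw' : (n1 (w - z) : ℝ) ≤ d * r := by rw [n1_sub_comm]; exact hzw
    have hzL : n1 (z - 0) ≤ ((L * m : ℕ) : ℤ) := by
      have h1 : (n1 z : ℝ) ≤ L * m := by
        have h2 : R ≤ L := by
          have : 0 ≤ d * (θ + 1) := by positivity
          linarith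
        exact hz1.trans (mul_le_mul_of_nonneg_right h2 hm0.le)
      rw [sub_zero]
      exact_mod_cast h1
    have hwL : n1 (w - 0) ≤ ((L * m : ℕ) : ℤ) := by
      have h1 : (n1 w : ℝ) ≤ n1 (w - z) + n1 z := by
        have := n1_tri w z 0
        rw [sub_zero, sub_zero] at this
        exact_mod_cast this
      have h2 : d * r ≤ d * (θ + 1) * m := by
        rw [mul_assoc]
        exact mul_le_mul_of_nonneg_left hr3 hd0.le
      have h3 : (R + d * (θ + 1)) * m ≤ L * m := mul_le_mul_of_nonneg_right hLR hm0.le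
      have h4 : (n1 w : ℝ) ≤ L * m := by linarith
      rw [sub_zero]
      exact_mod_cast h4
    have hθL : δ / (12 * L) * ((L * m : ℕ) : ℝ) = δ * m / 12 := by
      push_cast
      field_simp
    have h1 : |T q ω 0 z - T q ω 0 w| ≤ q.b * n1 (z - w) + δ * m / 12 := by
      have e1 := hTBω z w hzL hwL
      have e2 := hTBω w z hwL hzL
      rw [hθL] at e1 e2
      rw [n1_sub_comm] at e1
      have e3 := T_tri q ω 0 z w
      have e4 := T_tri q ω 0 w z
      rw [abs_le]
      constructor <;> linarith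
    have h2 := g_lip q F z w
    have h3 : q.b * (n1 (z - w) : ℝ) ≤ δ * m / 6 := by
      refine le_trans (mul_le_mul_of_nonneg_left hzw hb.le) ?_
      linarith
    have h4 : |T q ω 0 z - g q F z| ≤ |T q ω 0 w - g q F w| + |T q ω 0 z - T q ω 0 w| +
        |g q F z - g q F w| := by
      have : T q ω 0 z - g q F z = (T q ω 0 w - g q F w) + (T q ω 0 z - T q ω 0 w) -
          (g q F z - g q F w) := by ring
      rw [this]
      exact (abs_sub _ _).trans (add_le_add (abs_add_le _ _) le_rfl)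
    have h5 : 0 < δ * m := mul_pos hδ hm0
    linarith
  refine (measure_mono hsub).trans ((measure_union_le _ _).trans ((add_le_add
    (measure_biUnion_finset_le _ _) le_rfl).trans ?_))
  have hterm : ∀ k ∈ S, PM e F {ω | δ * m / 3 ≤
      |T q ω 0 (fun i => r * k i) - g q F (fun i => r * k i)|} ≤ ENNReal.ofReal (C1 / m) := by
    intro k hk
    refine (cheb q F hC _ (by positivity)).trans (ENNReal.ofReal_le_ofReal ?_)
    have hw : (n1 (fun i => (r : ℤ) * k i : V e) : ℝ) ≤ d * (K * r) := by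
      have h1 : n1 (fun i => (r : ℤ) * k i : V e) ≤ ∑ _i : Fin (e + 2), ((K : ℤ) * r) := by
        unfold n1
        refine Finset.sum_le_sum fun i _ => ?_
        rw [hS, Fintype.mem_piFinset] at hk
        have h2 := Finset.mem_Icc.1 (hk i)
        show |(r : ℤ) * k i| ≤ _
        rw [abs_mul, abs_of_pos hr0, mul_comm]
        exact mul_le_mul_of_nonneg_right (abs_le.2 h2) hr0.le
      have h5 : ((n1 (fun i => (r : ℤ) * k i : V e) : ℤ) : ℝ) ≤
          ((∑ _i : Fin (e + 2), ((K : ℤ) * r) : ℤ) : ℝ) := by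
        exact_mod_cast h1
      refine h5.trans (le_of_eq ?_)
      simp [hd]
    rw [div_le_div_iff₀ (by positivity) hm0]
    calc C * (n1 (fun i => (r : ℤ) * k i : V e) : ℝ) * m ≤ C * (d * (K * ((θ + 1) * m))) * m := by
          refine mul_le_mul_of_nonneg_right (mul_le_mul_of_nonneg_left (hw.trans ?_) hC0) hm0.le
          exact mul_le_mul_of_nonneg_left (mul_le_mul_of_nonneg_left hr3 (Nat.cast_nonneg _)) hd0.le
      _ = C1 * (δ * m / 3) ^ 2 := by
          rw [hC1]; field_simp; ring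
  have hLm : 1 ≤ L * m := by
    have : 1 ≤ m := by exact_mod_cast hm3
    have hL2 : 1 ≤ L := by rw [hL]; omega
    exact Nat.mul_pos hL2 this
  have hTB' : PM e F (TB q (δ / (12 * L)) (L * m) (0 : V e))ᶜ ≤ ENNReal.ofReal (C2 / m) := by
    refine (hTB (L * m) 0 hLm).trans (ENNReal.ofReal_le_ofReal ?_)
    rw [pow_one]
    refine div_le_div_of_nonneg_left hC2.le hm0 ?_
    push_cast
    nlinarith
  refine (add_le_add (Finset.sum_le_sum hterm) hTB').trans ?_
  rw [Finset.sum_const, nsmul_eq_mul, ← ENNReal.ofReal_natCast,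
    ← ENNReal.ofReal_mul (by positivity), ← ENNReal.ofReal_add (by positivity) (by positivity)]
  refine ENNReal.ofReal_le_ofReal ?_
  rw [← mul_div_assoc, ← add_div, div_le_iff₀ hm0]
  have := (div_le_iff₀ hε).1 (hm2.trans hm2')
  linarith

theorem uc (q : Par) (F : Measure ℝ) [IsProbabilityMeasure F] [MB q F] (hV : VarB e q F) {R δ ε : ℝ}
    (hR : 0 < R) (hδ : 0 < δ) (hε : 0 < ε) :
    ∃ m0 : ℕ, ∀ m : ℕ, m0 ≤ m → ∀ p : V e,
      PM e F {ω | ∃ z : V e, (n1 (z - p) : ℝ) ≤ R * m ∧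
        δ * m < |T q ω p z - g q F (z - p)|} ≤ ENNReal.ofReal ε := by
  obtain ⟨m0, h0⟩ := uc0 q F hV hR hδ hε
  refine ⟨m0, fun m hm p => ?_⟩
  refine le_trans ?_ (h0 m hm)
  set s : Set (Om e) := {ω | ∃ z : V e, (n1 z : ℝ) ≤ R * m ∧ δ * m < |T q ω 0 z - g q F z|} with hs
  have h1 : {ω : Om e | ∃ z : V e, (n1 (z - p) : ℝ) ≤ R * m ∧
        δ * m < |T q ω p z - g q F (z - p)|} ⊆ act (tr p) ⁻¹' s := by
    rintro ω ⟨z, hz1, hz2⟩
    refine ⟨z - p, hz1, ?_⟩
    rw [T_tr]
    exact hz2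
  refine (measure_mono h1).trans ?_
  have h2 := Measure.le_map_apply (μ := PM e F) (act_mp F (tr p)).measurable.aemeasurable s
  rwa [(act_mp F (tr p)).map_eq] at h2

/-! ### Passage times to half-spaces -/

/-- the half-space of level `t` is not empty -/
def HN (c : E e) : Prop := ∀ t : ℝ, Nonempty {y : V e // t ≤ lf c y}

lemma hn_of {c y : E e} (h : 0 < dt c y) : HN c := by
  intro t
  obtain ⟨n, hn⟩ := exists_nat_ge ((t + nr c * ((e : ℝ) + 2)) / dt c y)
  rw [div_le_iff₀ h] at hn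
  refine ⟨⟨rnd ((n : ℝ) • y), ?_⟩⟩
  have h1 := abs_le.1 (abs_lf_rnd_sub c ((n : ℝ) • y))
  rw [dt_smul] at h1
  linarith

section

variable {c : E e} (hc : HN c) (q : Par)

lemma TH_bdd (ω : Om e) (z : V e) (t : ℝ) :
    BddBelow (Set.range fun y : {y : V e // t ≤ lf c y} => T q ω z y) :=
  ⟨0, by rintro _ ⟨y, rfl⟩; exact T_nonneg q ω z y⟩

lemma TH_le (ω : Om e) (z : V e) {t : ℝ} {y : V e} (h : t ≤ lf c y) :
    TH q ω c z t ≤ T q ω z y := ciInf_le (TH_bdd q ω z t) ⟨y, h⟩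

lemma TH_nonneg (ω : Om e) (z : V e) (t : ℝ) : 0 ≤ TH q ω c z t :=
  Real.iInf_nonneg fun y => T_nonneg q ω z y

include hc in
lemma le_TH (ω : Om e) (z : V e) {t a : ℝ} (h : ∀ y : V e, t ≤ lf c y → a ≤ T q ω z y) :
    a ≤ TH q ω c z t := by
  have := hc t
  exact le_ciInf fun y => h y.1 y.2

include hc in
lemma TH_tri (ω : Om e) (z z' : V e) (t : ℝ) :
    TH q ω c z t ≤ T q ω z z' + TH q ω c z' t := by
  rw [← sub_le_iff_le_add']
  refine le_TH hc q ω z' fun y hy => ?_
  have h1 := TH_le q ω z hy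
  have h2 := T_tri q ω z z' y
  linarith

include hc in
lemma TH_mono (ω : Om e) (z : V e) {s t : ℝ} (h : s ≤ t) : TH q ω c z s ≤ TH q ω c z t :=
  le_TH hc q ω z fun _ hy => TH_le q ω z (h.trans hy)

include hc in
lemma TH_tr (ω : Om e) (z : V e) (t : ℝ) :
    TH q (act (tr z) ω) c 0 (t - lf c z) = TH q ω c z t := by
  refine le_antisymm ?_ ?_
  · refine le_TH hc q ω z fun y hy => ?_
    rw [← T_tr q ω z y]
    refine TH_le q _ 0 ?_
    rw [lf_sub]
    linarith
  · refine le_TH hc q _ 0 fun y hy => ?_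
    rw [T_act, tr_apply, tr_apply, zero_add]
    refine TH_le q _ z ?_
    rw [lf_add]
    linarith

lemma measurable_TH (z : V e) (t : ℝ) : Measurable fun ω : Om e => TH q ω c z t := by
  unfold TH
  exact Measurable.iInf fun y => measurable_T q z y

include hc in
lemma integrable_TH (F : Measure ℝ) [IsProbabilityMeasure F] [MB q F] (z : V e) (t : ℝ) :
    Integrable (fun ω : Om e => TH q ω c z t) (PM e F) := by
  obtain ⟨y, hy⟩ := hc t
  refine (integrable_T q F z y).mono' (measurable_TH q z t).aestronglyMeasurable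
    (Eventually.of_forall fun ω => ?_)
  rw [Real.norm_eq_abs, abs_of_nonneg (TH_nonneg q ω z t)]
  exact TH_le q ω z hy

/-- the mean passage time to the half-space -/
noncomputable def hh (q : Par) (F : Measure ℝ) [IsProbabilityMeasure F] (c : E e) (t : ℝ) : ℝ :=
  ∫ ω, TH q ω c 0 t ∂(PM e F)

include hc in
lemma int_TH (F : Measure ℝ) [IsProbabilityMeasure F] (z : V e) (t : ℝ) :
    ∫ ω, TH q ω c z t ∂(PM e F) = hh q F c (t - lf c z) := by
  unfold hh
  simp_rw [← TH_tr hc q _ z t]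
  exact int_act F (tr z) fun ω => TH q ω c 0 (t - lf c z)

include hc in
lemma hh_mono (F : Measure ℝ) [IsProbabilityMeasure F] [MB q F] {s t : ℝ} (h : s ≤ t) :
    hh q F c s ≤ hh q F c t :=
  integral_mono (integrable_TH hc q F 0 s) (integrable_TH hc q F 0 t) fun ω => TH_mono hc q ω 0 h

lemma hh_nonneg (F : Measure ℝ) [IsProbabilityMeasure F] (t : ℝ) : 0 ≤ hh q F c t :=
  integral_nonneg fun ω => TH_nonneg q ω 0 t

include hc in
/-- the lower bound of the mean passage time to the half-space -/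
theorem hh_lower (F : Measure ℝ) [IsProbabilityMeasure F] [MB q F] (hV : VarB e q F) (hFar : FarB e q F)
    (hlb : ∀ x : V e, lf c x ≤ g q F x) {δ : ℝ} (hδ : 0 < δ) (hδ1 : δ ≤ 1) :
    ∃ N0 : ℕ, ∀ N : ℕ, N0 ≤ N → (1 - δ) * N ≤ hh q F c N := by
  obtain ⟨c1, hc1, hfar⟩ := hFar
  obtain ⟨C, hC0, hC⟩ := hfar 1
  obtain ⟨m0, h0⟩ := uc0 q F hV (R := 1 / c1 + 1) (δ := δ / 2) (ε := δ / 4) (by positivity)
    (by positivity) (by positivity)
  obtain ⟨m1, hm1⟩ := exists_nat_ge (C / (δ / 4) * c1)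
  refine ⟨max 1 (max m0 m1), fun N hN => ?_⟩
  have hN1 : (1 : ℝ) ≤ N := by exact_mod_cast (le_max_left _ _).trans hN
  have hN2 : m0 ≤ N := (le_max_left _ _).trans ((le_max_right _ _).trans hN)
  have hN3 : (m1 : ℝ) ≤ N := by exact_mod_cast (le_max_right _ _).trans ((le_max_right _ _).trans hN)
  have hN0 : (0 : ℝ) < N := by linarith
  set n : ℕ := ⌈(N : ℝ) / c1⌉₊ with hn
  have hn1 : (N : ℝ) / c1 ≤ n := Nat.le_ceil _
  have hn2 : (n : ℝ) ≤ N / c1 + 1 := (Nat.ceil_lt_add_one (by positivity)).le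
  set a : ℝ := (1 - δ / 2) * N with ha
  have ha0 : 0 ≤ a := mul_nonneg (by linarith) hN0.le
  have hsub : {ω : Om e | a ≤ TH q ω c 0 N}ᶜ ⊆
      {ω | ∃ z : V e, (n1 z : ℝ) ≤ (1 / c1 + 1) * N ∧ δ / 2 * N < |T q ω 0 z - g q F z|} ∪
      {ω | ∃ y : V e, (n : ℤ) ≤ n1 y ∧ T q ω 0 y < c1 * n1 y} := by
    intro ω hω
    by_contra hne
    rw [Set.mem_union, not_or] at hne
    obtain ⟨h1, h2⟩ := hne
    refine hω ?_
    show a ≤ TH q ω c 0 N
    refine le_TH hc q ω 0 fun z hz => ?_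
    by_cases hzn : (n : ℤ) ≤ n1 z
    · have h3 : c1 * n1 z ≤ T q ω 0 z := by
        by_contra h3
        push Not at h3
        exact h2 ⟨z, hzn, h3⟩
      have h4 : (n : ℝ) ≤ n1 z := by exact_mod_cast hzn
      have h5 : (N : ℝ) ≤ c1 * n1 z := by
        have := (div_le_iff₀ hc1).1 (hn1.trans h4)
        linarith
      have h6 : a ≤ N := by rw [ha]; nlinarith
      linarith
    · push Not at hzn
      have h4 : (n1 z : ℝ) ≤ n := by exact_mod_cast hzn.le
      have h5 : (n1 z : ℝ) ≤ (1 / c1 + 1) * N := by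
        refine (h4.trans hn2).trans ?_
        have : N / c1 = 1 / c1 * N := by ring
        rw [add_mul, one_mul, this]
        linarith
      have h6 : |T q ω 0 z - g q F z| ≤ δ / 2 * N := by
        by_contra h6
        push Not at h6
        exact h1 ⟨z, h5, h6⟩
      have h7 := (abs_le.1 h6).1
      have h8 := hlb z
      rw [ha]
      linarith
  have hprob : PM e F ({ω : Om e | a ≤ TH q ω c 0 N}ᶜ) ≤ ENNReal.ofReal (δ / 2) := by
    refine (measure_mono hsub).trans ((measure_union_le _ _).trans ?_)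
    have h1 : C / ((n : ℝ) + 1) ^ 1 ≤ δ / 4 := by
      rw [pow_one, div_le_iff₀ (by positivity)]
      have h2 : C / (δ / 4) * c1 ≤ N := hm1.trans hN3
      have h3 : C / (δ / 4) ≤ N / c1 := by rwa [le_div_iff₀ hc1]
      have h4 := h3.trans hn1
      rw [div_le_iff₀ (by positivity)] at h4
      nlinarith
    have h2 := (h0 N hN2)
    have h3 := (hC n).trans (ENNReal.ofReal_le_ofReal h1)
    refine (add_le_add h2 h3).trans ?_
    rw [← ENNReal.ofReal_add (by positivity) (by positivity)]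
    exact ENNReal.ofReal_le_ofReal (by linarith)
  have hms : MeasurableSet {ω : Om e | a ≤ TH q ω c 0 N} :=
    measurableSet_le measurable_const (measurable_TH q 0 _)
  have hreal : 1 - δ / 2 ≤ (PM e F).real {ω : Om e | a ≤ TH q ω c 0 N} := by
    have h1 : (PM e F).real ({ω : Om e | a ≤ TH q ω c 0 N}ᶜ) ≤ δ / 2 := by
      unfold Measure.real
      exact ENNReal.toReal_le_of_le_ofReal (by positivity) hprob
    rw [probReal_compl_eq_one_sub hms] at h1
    linarith
  have hmk := mul_meas_ge_le_integral_of_nonneg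
    (Eventually.of_forall fun ω : Om e => TH_nonneg (c := c) q ω 0 (N : ℝ))
    (integrable_TH hc q F 0 N) a
  unfold hh
  refine le_trans ?_ hmk
  refine le_trans ?_ (mul_le_mul_of_nonneg_left hreal ha0)
  rw [ha]
  nlinarith [mul_nonneg (sq_nonneg δ) hN0.le]

end

/-- telescoping -/
lemma sum_shift (h : ℝ → ℝ) (hm : ∀ s t, s ≤ t → h s ≤ h t) (a N : ℕ) :
    a * h N - a * h a ≤ ∑ t ∈ Finset.range N, (h ((t : ℝ) + a) - h t) := by
  have h1 : ∑ t ∈ Finset.range N, h ((t : ℝ) + a) + ∑ t ∈ Finset.range a, h t =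
      ∑ t ∈ Finset.range N, h t + ∑ t ∈ Finset.range a, h ((N : ℝ) + t) := by
    have e1 := Finset.sum_range_add (fun t : ℕ => h t) a N
    have e2 := Finset.sum_range_add (fun t : ℕ => h t) N a
    rw [add_comm a N, e2] at e1
    push_cast at e1
    rw [e1, add_comm]
    congr 1
    exact Finset.sum_congr rfl fun t _ => by rw [add_comm]
  rw [Finset.sum_sub_distrib]
  have h2 : (a : ℝ) * h N ≤ ∑ t ∈ Finset.range a, h ((N : ℝ) + t) := by
    have : ∑ _t ∈ Finset.range a, h N ≤ ∑ t ∈ Finset.range a, h ((N : ℝ) + t) :=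
      Finset.sum_le_sum fun t _ => hm _ _ (by linarith [Nat.cast_nonneg (α := ℝ) t])
    rwa [Finset.sum_const, Finset.card_range, nsmul_eq_mul] at this
  have h3 : ∑ t ∈ Finset.range a, h t ≤ (a : ℝ) * h a := by
    have : ∑ t ∈ Finset.range a, h t ≤ ∑ _t ∈ Finset.range a, h a :=
      Finset.sum_le_sum fun t ht => hm _ _ (by exact_mod_cast (Finset.mem_range.1 ht).le)
    rwa [Finset.sum_const, Finset.card_range, nsmul_eq_mul] at this
  linarith

/-! ### Differentiability, uniformly -/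

lemma nr_le_dist (x y : E e) : nr (x - y) ≤ ((e : ℝ) + 2) * dist x y := by
  unfold nr
  calc ∑ i, |(x - y) i| ≤ ∑ _i : Fin (e + 2), dist x y :=
        Finset.sum_le_sum fun i _ => by
          have := dist_le_pi_dist x y i
          rwa [Real.dist_eq] at this
    _ = ((e : ℝ) + 2) * dist x y := by simp

lemma compact_ball : IsCompact {z : E e | nr z ≤ 1} := by
  refine Metric.isCompact_of_isClosed_isBounded ?_ ?_
  · refine isClosed_le ?_ continuous_const
    unfold nr
    fun_prop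
  · refine (Metric.isBounded_closedBall (x := (0 : E e)) (r := 1)).subset fun z hz => ?_
    rw [Metric.mem_closedBall, dist_pi_le_iff zero_le_one]
    intro i
    rw [Real.dist_eq, Pi.zero_apply, sub_zero]
    exact (abs_coord_le z i).trans hz

theorem dif_unif (q : Par) (F : Measure ℝ) [IsProbabilityMeasure F] [MB q F] {c y : E e}
    (hD : Dif q F c y) {δ : ℝ} (hδ : 0 < δ) :
    ∃ Λ : ℕ, 1 ≤ Λ ∧ ∃ m0 : ℕ, ∀ m : ℕ, m0 ≤ m → ∀ z : V e, n1 z ≤ m →
      g q F (rnd (((Λ * m : ℕ) : ℝ) • y) + z) ≤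
        lf c (rnd (((Λ * m : ℕ) : ℝ) • y) + z) + δ * m := by
  obtain ⟨s0, hs0, hs⟩ := hD.2 (δ / 4) (by positivity)
  have hb := q.hb
  have he : (0 : ℝ) ≤ e := Nat.cast_nonneg e
  set d : ℝ := (e : ℝ) + 2 with hd
  have hd0 : 0 < d := by rw [hd]; linarith
  have hnc := nr_nonneg c
  obtain ⟨Λ', hΛ'⟩ := exists_nat_ge (1 / s0)
  set Λ : ℕ := Λ' + 1 with hΛ
  have hΛ1 : (1 : ℝ) ≤ Λ := by rw [hΛ]; push_cast; linarith [Nat.cast_nonneg (α := ℝ) Λ']
  have hΛ0 : (0 : ℝ) < Λ := by linarith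
  have hs1 : 1 / (Λ : ℝ) ≤ s0 := by
    rw [div_le_iff₀ hΛ0]
    rw [div_le_iff₀ hs0] at hΛ'
    have : (Λ' : ℝ) ≤ Λ := by rw [hΛ]; push_cast; linarith
    nlinarith
  have hev := hs (1 / (Λ : ℝ)) (by positivity) hs1
  set ρ : ℝ := δ / (4 * (d * (nr c + q.b))) with hρ
  have hρ0 : 0 < ρ := by positivity
  obtain ⟨t, ht, htf, hcov⟩ := (compact_ball (e := e)).finite_cover_balls hρ0
  have hev2 : ∀ᶠ n : ℕ in atTop, ∀ z ∈ t, g q F (rnd ((n : ℝ) • (y + (1 / (Λ : ℝ)) • z))) ≤
      n * (dt c (y + (1 / (Λ : ℝ)) • z) + δ / 4 * (1 / (Λ : ℝ))) :=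
    (eventually_all_finite htf).2 fun z hz => hev z (ht hz)
  obtain ⟨n0, hn0⟩ := eventually_atTop.1 hev2
  obtain ⟨m1, hm1⟩ := exists_nat_ge ((nr c + 2 * q.b) * d / (δ / 4))
  refine ⟨Λ, by rw [hΛ]; omega, max 1 (max n0 m1), fun m hm z hz => ?_⟩
  have hm1' : (m1 : ℝ) ≤ m := by exact_mod_cast (le_max_right _ _).trans ((le_max_right _ _).trans hm)
  have hm2 : n0 ≤ m := (le_max_left _ _).trans ((le_max_right _ _).trans hm)
  have hm3 : (1 : ℝ) ≤ m := by exact_mod_cast (le_max_left _ _).trans hm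
  have hm0 : (0 : ℝ) < m := by linarith
  set n : ℕ := Λ * m with hn
  have hnm : (n : ℝ) = Λ * m := by rw [hn]; push_cast; ring
  have hn1 : n0 ≤ n := by
    refine hm2.trans ?_
    rw [hn]
    exact Nat.le_mul_of_pos_left m (by rw [hΛ]; omega)
  set z1 : E e := (1 / (m : ℝ)) • vc z with hz1
  have hz1n : nr z1 ≤ 1 := by
    rw [hz1, nr_smul, nr_vc, abs_of_pos (by positivity), one_div, inv_mul_le_iff₀ hm0, mul_one]
    exact_mod_cast hz
  obtain ⟨z2, hz2, hdist⟩ : ∃ z2 ∈ t, dist z1 z2 < ρ := by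
    have := hcov hz1n
    simpa using this
  have hmz : vc z = (m : ℝ) • z1 := by
    rw [hz1, smul_smul, mul_one_div_cancel hm0.ne', one_smul]
  set w : E e := (n : ℝ) • (y + (1 / (Λ : ℝ)) • z2) with hw
  have hw' : w = (n : ℝ) • y + (m : ℝ) • z2 := by
    rw [hw, smul_add, smul_smul, hnm]
    congr 2
    field_simp
  have hgw : g q F (rnd w) ≤ n * dt c y + m * dt c z2 + δ / 4 * m := by
    refine (hn0 n hn1 z2 hz2).trans (le_of_eq ?_)
    rw [dt_add, dt_smul, hnm]
    field_simp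
  set x : V e := rnd ((n : ℝ) • y) with hx
  have hdz : nr (z1 - z2) ≤ d * ρ :=
    (nr_le_dist z1 z2).trans (mul_le_mul_of_nonneg_left hdist.le hd0.le)
  have hdz2 : nr ((m : ℝ) • z1 - (m : ℝ) • z2) ≤ m * (d * ρ) := by
    rw [← smul_sub, nr_smul, abs_of_pos hm0]
    exact mul_le_mul_of_nonneg_left hdz hm0.le
  have hdist2 : (n1 (x + z - rnd w) : ℝ) ≤ 2 * d + m * (d * ρ) := by
    rw [← nr_vc, vc_sub, vc_add, hmz]
    have h1 : vc x + (m : ℝ) • z1 - vc (rnd w) =
        (vc x - (n : ℝ) • y) + (((m : ℝ) • z1 - (m : ℝ) • z2) + (w - vc (rnd w))) := by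
      rw [hw']; abel
    rw [h1]
    have h2 := nr_add_le (vc x - (n : ℝ) • y)
      (((m : ℝ) • z1 - (m : ℝ) • z2) + (w - vc (rnd w)))
    have h3 := nr_add_le ((m : ℝ) • z1 - (m : ℝ) • z2) (w - vc (rnd w))
    have h4 : nr (vc x - (n : ℝ) • y) ≤ d := nr_rnd_sub _
    have h5 : nr (w - vc (rnd w)) ≤ d := by rw [nr_sub_comm]; exact nr_rnd_sub _
    linarith
  have h6 := g_sub_le q F (x + z) (rnd w)
  have h7 : n * dt c y - nr c * d ≤ lf c x := by
    have := abs_le.1 (abs_lf_rnd_sub c ((n : ℝ) • y))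
    rw [dt_smul] at this
    linarith
  have h8 : m * dt c z2 - nr c * (m * (d * ρ)) ≤ lf c z := by
    unfold lf
    rw [hmz]
    have h9 := abs_le.1 (abs_dt_le c ((m : ℝ) • z1 - (m : ℝ) • z2))
    rw [dt_sub, dt_smul c m z2] at h9
    have h10 := mul_le_mul_of_nonneg_left hdz2 hnc
    linarith
  have h9 : (nr c + q.b) * (m * (d * ρ)) = δ / 4 * m := by
    rw [hρ]; field_simp
  have h10 : (nr c + 2 * q.b) * d ≤ δ / 4 * m := by
    have := (div_le_iff₀ (by positivity : 0 < δ / 4)).1 (hm1.trans hm1')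
    linarith
  have h11 := mul_le_mul_of_nonneg_left hdist2 hb.le
  rw [lf_add]
  nlinarith

/-! ### The theorem -/

theorem bus : BusT := by
  intro e q F _ _ hV hFar c y hcy hD _ η ε hη hε
  have hc : HN c := hn_of hcy
  have hlb := hD.1
  have he : (0 : ℝ) ≤ e := Nat.cast_nonneg e
  set δ : ℝ := η / 5 with hδ
  have hδ0 : 0 < δ := by positivity
  set δ' : ℝ := δ * min 1 (ε / 4) with hδ'
  have hmin0 : 0 < min 1 (ε / 4) := lt_min one_pos (by positivity)
  have hδ'0 : 0 < δ' := mul_pos hδ0 hmin0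
  have hδ'1 : δ' ≤ δ := by
    rw [hδ']
    exact mul_le_of_le_one_right hδ0.le (min_le_left _ _)
  have hδ'2 : δ' ≤ δ * (ε / 4) := mul_le_mul_of_nonneg_left (min_le_right _ _) hδ0.le
  obtain ⟨Λ, hΛ, m1, hm1⟩ := dif_unif q F hD hδ'0
  set R : ℝ := 1 + Λ * nr y + ((e : ℝ) + 2) with hR
  have hR0 : 0 < R := by
    have := nr_nonneg y
    positivity
  obtain ⟨m2, hm2⟩ := uc q F hV (R := 1) one_pos hδ0 (show 0 < ε / 4 by positivity)
  obtain ⟨m3, hm3⟩ := uc q F hV hR0 hδ0 (show 0 < ε / 4 by positivity)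
  obtain ⟨m4, hm4⟩ := exists_nat_ge (2 / (δ * (ε / 4)))
  obtain ⟨m5, hm5⟩ := exists_nat_ge (nr c * ((e : ℝ) + 2) / dt c y)
  refine ⟨max (max 1 m5) (max (max m1 m2) (max m3 m4)), fun m hm => ?_⟩
  have hmm1 : m1 ≤ m := by
    refine le_trans ?_ hm
    exact (le_max_left _ _).trans ((le_max_left _ _).trans (le_max_right _ _))
  have hmm2 : m2 ≤ m := by
    refine le_trans ?_ hm
    exact (le_max_right _ _).trans ((le_max_left _ _).trans (le_max_right _ _))
  have hmm3 : m3 ≤ m := by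
    refine le_trans ?_ hm
    exact (le_max_left _ _).trans ((le_max_right _ _).trans (le_max_right _ _))
  have hmm4 : (m4 : ℝ) ≤ m := by
    refine Nat.cast_le.2 (le_trans ?_ hm)
    exact (le_max_right _ _).trans ((le_max_right _ _).trans (le_max_right _ _))
  have hm1r : (1 : ℝ) ≤ m := by
    exact_mod_cast ((le_max_left _ _).trans (le_max_left _ _)).trans hm
  have hmm5 : (m5 : ℝ) ≤ m := Nat.cast_le.2 (((le_max_right _ _).trans (le_max_left _ _)).trans hm)
  have hm0 : (0 : ℝ) < m := by linarith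
  set x : V e := rnd (((Λ * m : ℕ) : ℝ) • y) with hx
  have hg1 : ∀ z : V e, n1 z ≤ m → g q F (x + z) ≤ lf c (x + z) + δ' * m := hm1 m hmm1
  have hgx : g q F x ≤ lf c x + δ' * m := by
    have := hg1 0 (by simp)
    rwa [add_zero] at this
  -- the events
  set E1 : Set (Om e) := {ω | ∃ z : V e, (n1 (z - 0) : ℝ) ≤ 1 * m ∧
    δ * m < |T q ω 0 z - g q F (z - 0)|} with hE1
  set E2 : Set (Om e) := {ω | ∃ z : V e, (n1 (z - (-x)) : ℝ) ≤ R * m ∧
    δ * m < |T q ω (-x) z - g q F (z - (-x))|} with hE2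
  have hP1 : PM e F E1 ≤ ENNReal.ofReal (ε / 4) := hm2 m hmm2 0
  have hP2 : PM e F E2 ≤ ENNReal.ofReal (ε / 4) := hm3 m hmm3 (-x)
  set Y : ℝ → Om e → ℝ := fun t ω => T q ω (-x) 0 - TH q ω c (-x) t + TH q ω c 0 t with hY
  have hY0 : ∀ t ω, 0 ≤ Y t ω := fun t ω => by
    have := TH_tri hc q ω (-x) 0 t
    simp only [hY]
    linarith
  have hYi : ∀ t, Integrable (Y t) (PM e F) := fun t =>
    ((integrable_T q F (-x) 0).sub (integrable_TH hc q F (-x) t)).add (integrable_TH hc q F 0 t)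
  have hYint : ∀ t, ∫ ω, Y t ω ∂(PM e F) =
      g q F x - (hh q F c (t + lf c x) - hh q F c t) := by
    intro t
    simp only [hY]
    rw [integral_add (f := fun ω => T q ω (-x) 0 - TH q ω c (-x) t)
      ((integrable_T q F (-x) 0).sub (integrable_TH hc q F (-x) t))
      (integrable_TH hc q F 0 t), integral_sub (integrable_T q F (-x) 0)
      (integrable_TH hc q F (-x) t), mean_T, int_TH hc, int_TH hc, lf_zero, lf_neg]
    simp only [zero_add, sub_neg_eq_add, sub_zero]
    ring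
  -- the inclusion
  have hsub : ∀ t : ℝ, Bad q F c η m t ⊆ E1 ∪ (E2 ∪ {ω | δ * m ≤ Y t ω}) := by
    intro t ω hω
    obtain ⟨z, hz1, hz2, hz3⟩ := hω
    by_contra hne
    rw [Set.mem_union, Set.mem_union, not_or, not_or] at hne
    obtain ⟨h1, h2, h3⟩ := hne
    have h3' : Y t ω < δ * m := not_le.1 h3
    have hz1' : (n1 z : ℝ) = m := by exact_mod_cast hz1
    have h4 : |T q ω 0 z - g q F z| ≤ δ * m := by
      by_contra h4
      push Not at h4
      exact h1 ⟨z, by rw [sub_zero, one_mul, hz1'], by rw [sub_zero]; exact h4⟩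
    have hn1x : (n1 x : ℝ) ≤ Λ * m * nr y + ((e : ℝ) + 2) := by
      have := n1_rnd_le (((Λ * m : ℕ) : ℝ) • y)
      rw [nr_smul, abs_of_nonneg (Nat.cast_nonneg _), ← hx] at this
      push_cast at this
      exact this
    have hRm : Λ * m * nr y + ((e : ℝ) + 2) + m ≤ R * m := by
      rw [hR]
      nlinarith
    have h5 : ∀ z' : V e, (n1 z' : ℝ) ≤ m → |T q ω (-x) z' - g q F (z' + x)| ≤ δ * m := by
      intro z' hz'
      by_contra h5
      push Not at h5
      refine h2 ⟨z', ?_, by rw [sub_neg_eq_add]; exact h5⟩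
      rw [sub_neg_eq_add]
      have h6 : (n1 (z' + x) : ℝ) ≤ n1 z' + n1 x := by exact_mod_cast n1_add_le z' x
      linarith
    have h6 := (abs_le.1 (h5 z hz1'.le)).2
    have h7 := (abs_le.1 (h5 0 (by simp))).1
    rw [zero_add] at h7
    have h8 := (abs_le.1 h4).1
    have h9 := TH_tri hc q ω (-x) z t
    have h10 := hg1 z hz1.le
    have h11 := hlb x
    rw [add_comm z x] at h6
    rw [lf_add] at h10
    simp only [hY] at h3'
    have h12 : δ' * m ≤ δ * m := mul_le_mul_of_nonneg_right hδ'1 hm0.le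
    have h13 : η * m = 5 * (δ * m) := by rw [hδ]; ring
    linarith
  have hpt : ∀ t : ℝ, PM e F (Bad q F c η m t) ≤
      ENNReal.ofReal (ε / 2 + (∫ ω, Y t ω ∂(PM e F)) / (δ * m)) := by
    intro t
    have hint0 : 0 ≤ ∫ ω, Y t ω ∂(PM e F) := integral_nonneg fun ω => hY0 t ω
    have hmk : PM e F {ω | δ * m ≤ Y t ω} ≤
        ENNReal.ofReal ((∫ ω, Y t ω ∂(PM e F)) / (δ * m)) := by
      have h1 := mul_meas_ge_le_integral_of_nonneg (Eventually.of_forall fun ω => hY0 t ω)
        (hYi t) (δ * m)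
      rw [← ofReal_measureReal]
      refine ENNReal.ofReal_le_ofReal ?_
      rw [le_div_iff₀ (by positivity), mul_comm]
      exact h1
    refine (measure_mono (hsub t)).trans ((measure_union_le _ _).trans ?_)
    refine (add_le_add hP1 ((measure_union_le _ _).trans (add_le_add hP2 hmk))).trans ?_
    rw [← ENNReal.ofReal_add (by positivity) (by positivity),
      ← ENNReal.ofReal_add (by positivity) (by positivity)]
    exact ENNReal.ofReal_le_ofReal (by linarith)
  -- the average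
  set A : ℝ := lf c x with hA
  have hApos : 0 ≤ A := by
    have h1 := (abs_le.1 (abs_lf_rnd_sub c (((Λ * m : ℕ) : ℝ) • y))).1
    rw [← hx, dt_smul] at h1
    have h2 := (div_le_iff₀ hcy).1 (hm5.trans hmm5)
    have h3 : (m : ℝ) * dt c y ≤ ((Λ * m : ℕ) : ℝ) * dt c y := by
      refine mul_le_mul_of_nonneg_right ?_ hcy.le
      exact_mod_cast Nat.le_mul_of_pos_left m (by omega)
    linarith
  set a : ℕ := ⌊A⌋₊ with ha
  have haA : A - 1 ≤ a := by
    have := Nat.lt_floor_add_one A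
    rw [ha]; linarith
  obtain ⟨N1, hN1⟩ := hh_lower hc q F hV hFar hlb (δ := 1 / (2 * ((a : ℝ) + 1))) (by positivity) (by
    rw [div_le_one (by positivity)]
    linarith [Nat.cast_nonneg (α := ℝ) a])
  obtain ⟨N2, hN2⟩ := exists_nat_ge (2 * (a * hh q F c a))
  refine ⟨max N1 N2, fun N hN => ?_⟩
  have hNN1 : N1 ≤ N := (le_max_left _ _).trans hN
  have hNN2 : (N2 : ℝ) ≤ N := by exact_mod_cast (le_max_right _ _).trans hN
  have hN0 : (0 : ℝ) ≤ N := Nat.cast_nonneg N
  have hsum : (A - 2) * N ≤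
      ∑ t ∈ Finset.range N, (hh q F c ((t : ℝ) + A) - hh q F c t) := by
    by_cases hA0 : 0 ≤ A
    · have haA2 : (a : ℝ) ≤ A := Nat.floor_le hA0
      have h1 := sum_shift (hh q F c) (fun s t h => hh_mono hc q F h) a N
      have h2 : ∑ t ∈ Finset.range N, (hh q F c ((t : ℝ) + a) - hh q F c t) ≤
          ∑ t ∈ Finset.range N, (hh q F c ((t : ℝ) + A) - hh q F c t) :=
        Finset.sum_le_sum fun t _ => sub_le_sub_right (hh_mono hc q F (by linarith)) _
      have h3 := hN1 N hNN1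
      have ha0 : (0 : ℝ) ≤ a := Nat.cast_nonneg a
      have h4 := mul_le_mul_of_nonneg_left h3 ha0
      have h5 : (a : ℝ) * ((1 - 1 / (2 * ((a : ℝ) + 1))) * N) ≥ (a - 1 / 2) * N := by
        have h6 : (a : ℝ) * (1 / (2 * ((a : ℝ) + 1))) ≤ 1 / 2 := by
          rw [← mul_div_assoc, mul_one, div_le_div_iff₀ (by positivity) (by positivity)]
          linarith
        nlinarith
      have h6 : (A - 1) * N ≤ a * N := mul_le_mul_of_nonneg_right haA hN0
      linarith
    · exact absurd hApos hA0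
  have hfin : ∑ t ∈ Finset.range N, (ε / 2 + (∫ ω, Y t ω ∂(PM e F)) / (δ * m)) ≤ ε * N := by
    rw [Finset.sum_add_distrib, Finset.sum_const, Finset.card_range, nsmul_eq_mul,
      ← Finset.sum_div]
    have h1 : ∑ t ∈ Finset.range N, ∫ ω, Y t ω ∂(PM e F) ≤ (δ' * m + 2) * N := by
      simp_rw [hYint]
      rw [Finset.sum_sub_distrib, Finset.sum_const, Finset.card_range, nsmul_eq_mul]
      have h2 := mul_le_mul_of_nonneg_right hgx hN0
      linarith
    have h2 : (δ' * m + 2) * N / (δ * m) ≤ ε / 2 * N := by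
      rw [div_le_iff₀ (by positivity)]
      have h3 : 2 ≤ δ * (ε / 4) * m := by
        have := (div_le_iff₀ (by positivity)).1 (hm4.trans hmm4)
        linarith
      have h4 : δ' * m ≤ δ * (ε / 4) * m := mul_le_mul_of_nonneg_right hδ'2 hm0.le
      have h5 : (δ' * m + 2) * N ≤ (2 * (δ * (ε / 4) * m)) * N :=
        mul_le_mul_of_nonneg_right (by linarith) hN0
      refine h5.trans (le_of_eq ?_)
      ring
    have h3 : (∑ t ∈ Finset.range N, ∫ ω, Y t ω ∂(PM e F)) / (δ * m) ≤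
        (δ' * m + 2) * N / (δ * m) := div_le_div_of_nonneg_right h1 (by positivity)
    linarith
  calc ∑ t ∈ Finset.range N, PM e F (Bad q F c η m t)
      ≤ ∑ t ∈ Finset.range N, ENNReal.ofReal (ε / 2 + (∫ ω, Y t ω ∂(PM e F)) / (δ * m)) :=
        Finset.sum_le_sum fun t _ => hpt t
    _ = ENNReal.ofReal (∑ t ∈ Finset.range N, (ε / 2 + (∫ ω, Y t ω ∂(PM e F)) / (δ * m))) := by
        rw [ENNReal.ofReal_sum_of_nonneg]
        intro t _
        have : 0 ≤ ∫ ω, Y t ω ∂(PM e F) := integral_nonneg fun ω => hY0 t ω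
        positivity
    _ ≤ ENNReal.ofReal (ε * N) := ENNReal.ofReal_le_ofReal hfin

end Pool.Agent.J6H34.NX
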